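import Mathlib

/-!
# Definitions for MP_a8e10c_co: planar graphs and bipartite thickness
-/

namespace Pool.Agent.Lib.MP_a8e10c_co

/-- `f` is a crossing-free straight-line drawing of `G` in the plane: the vertices are placed at
distinct points, a vertex lying on the segment drawn for an edge is an end of that edge, and the
segments drawn for two distinct edges meet only at common ends of the two edges. -/
structure IsPlaneDrawing {V : Type*} (G : SimpleGraph V) (f : V → ℝ × ℝ) : Prop where
  inj : Function.Injective f
  vertex : ∀ a b w, G.Adj a b → f w ∈ segment ℝ (f a) (f b) → w = a ∨ w = b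
  edge : ∀ a b c d, G.Adj a b → G.Adj c d → s(a, b) ≠ s(c, d) →
    segment ℝ (f a) (f b) ∩ segment ℝ (f c) (f d) ⊆ f '' ({a, b} ∩ {c, d})

/-- A graph is planar if it has a crossing-free drawing in the plane; by Fáry's theorem one may ask
for a straight-line drawing, and we do. -/
def Planar {V : Type*} (G : SimpleGraph V) : Prop := ∃ f : V → ℝ × ℝ, IsPlaneDrawing G f

/-- `G` is the union of `t` subgraphs, each of them planar and bipartite. -/
def CoveredBy {V : Type*} (G : SimpleGraph V) (t : ℕ) : Prop :=
  ∃ H : Fin t → SimpleGraph V,
    (∀ i, H i ≤ G ∧ Planar (H i) ∧ (H i).Colorable 2) ∧ ∀ a b, G.Adj a b → ∃ i, (H i).Adj a b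

/-- The bipartite thickness: the least `t` such that `G` is the union of `t` planar bipartite
subgraphs. -/
noncomputable def bipartiteThickness {V : Type*} (G : SimpleGraph V) : ℕ :=
  sInf {t | CoveredBy G t}

end Pool.Agent.Lib.MP_a8e10c_co
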