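import Mathlib
import Pool.Agent.Lib.MP_a8e10c_co.Defs

namespace Pool.Agent.Lib.MP_a8e10c_co

/-- The point of the real plane with the given integer coordinates. -/
def pt (P : ℤ × ℤ) : ℝ × ℝ := ((P.1 : ℝ), (P.2 : ℝ))

theorem pt_inj : Function.Injective pt := by
  rintro ⟨a, b⟩ ⟨c, d⟩ h
  simp only [pt, Prod.mk.injEq, Int.cast_inj] at h
  exact Prod.ext h.1 h.2

/-- Oriented host edges: diagonal ones from the `x`-axis to the `y`-axis, and unit ones along
the axes. -/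
inductive Host : ℤ × ℤ → ℤ × ℤ → Prop
  | diag (a b : ℤ) (ha : a ≠ 0) (hb : b ≠ 0) (hab : |a| = |b| + 1 ∨ |b| = |a| + 1)
      (hpar : a % 2 = 1) (hpar' : b % 2 = 0) : Host (a, 0) (0, b)
  | horiz (k : ℤ) (hk : 1 ≤ k ∨ k ≤ -2) : Host (k, 0) (k + 1, 0)
  | vert (k : ℤ) (hk : 1 ≤ k ∨ k ≤ -2) : Host (0, k) (0, k + 1)

/-- host vertices -/
def HostV (P : ℤ × ℤ) : Prop := (P.1 = 0 ∧ P.2 ≠ 0) ∨ (P.1 ≠ 0 ∧ P.2 = 0)

theorem mem_seg {A B p : ℝ × ℝ} : p ∈ segment ℝ A B ↔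
    ∃ t : ℝ, 0 ≤ t ∧ t ≤ 1 ∧ p = ((1 - t) * A.1 + t * B.1, (1 - t) * A.2 + t * B.2) := by
  constructor
  · rintro ⟨a, b, ha, hb, hab, rfl⟩
    refine ⟨b, hb, by linarith, ?_⟩
    have : a = 1 - b := by linarith
    subst this
    rfl
  · rintro ⟨t, h0, h1, rfl⟩
    exact ⟨1 - t, t, by linarith, h0, by ring, rfl⟩

theorem seg_horiz {k : ℤ} {p : ℝ × ℝ} (h : p ∈ segment ℝ (pt (k, 0)) (pt (k + 1, 0))) :
    p.2 = 0 ∧ (k : ℝ) ≤ p.1 ∧ p.1 ≤ k + 1 := by
  rw [mem_seg] at h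
  obtain ⟨t, h0, h1, rfl⟩ := h
  simp only [pt]
  push_cast
  refine ⟨by ring, by nlinarith, by nlinarith⟩

theorem seg_vert {k : ℤ} {p : ℝ × ℝ} (h : p ∈ segment ℝ (pt (0, k)) (pt (0, k + 1))) :
    p.1 = 0 ∧ (k : ℝ) ≤ p.2 ∧ p.2 ≤ k + 1 := by
  rw [mem_seg] at h
  obtain ⟨t, h0, h1, rfl⟩ := h
  simp only [pt]
  push_cast
  refine ⟨by ring, by nlinarith, by nlinarith⟩

theorem seg_diag {a b : ℤ} {p : ℝ × ℝ} (h : p ∈ segment ℝ (pt (a, 0)) (pt (0, b))) :
    ∃ t : ℝ, 0 ≤ t ∧ t ≤ 1 ∧ p = ((1 - t) * a, t * b) := by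
  rw [mem_seg] at h
  obtain ⟨t, h0, h1, rfl⟩ := h
  refine ⟨t, h0, h1, ?_⟩
  simp [pt]

/-- a diagonal meets the axes only in its ends -/
theorem diag_x0 {a b : ℤ} (ha : a ≠ 0) {p : ℝ × ℝ}
    (h : p ∈ segment ℝ (pt (a, 0)) (pt (0, b))) (h0 : p.1 = 0) : p = pt (0, b) := by
  obtain ⟨t, h0', h1, rfl⟩ := seg_diag h
  have ha' : (a : ℝ) ≠ 0 := by exact_mod_cast ha
  have : 1 - t = 0 := by
    simp only at h0
    rcases mul_eq_zero.mp h0 with h | h
    · exact h
    · exact absurd h ha'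
  have ht : t = 1 := by linarith
  subst ht
  simp [pt]

theorem diag_y0 {a b : ℤ} (hb : b ≠ 0) {p : ℝ × ℝ}
    (h : p ∈ segment ℝ (pt (a, 0)) (pt (0, b))) (h0 : p.2 = 0) : p = pt (a, 0) := by
  obtain ⟨t, h0', h1, rfl⟩ := seg_diag h
  have hb' : (b : ℝ) ≠ 0 := by exact_mod_cast hb
  have : t = 0 := by
    simp only at h0
    rcases mul_eq_zero.mp h0 with h | h
    · exact h
    · exact absurd h hb'
  subst this
  simp [pt]

theorem nested {a b a' b' x y : ℝ} (ha : 0 < a) (hb : 0 < b) (hx : 0 < x) (hy : 0 < y)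
    (h1 : x / a + y / b = 1) (h2 : x / a' + y / b' = 1) (haa : a ≤ a') (hbb : b ≤ b') :
    a = a' ∧ b = b' := by
  have hx1 : x / a' ≤ x / a := div_le_div_of_nonneg_left hx.le ha haa
  have hy1 : y / b' ≤ y / b := div_le_div_of_nonneg_left hy.le hb hbb
  have e1 : x / a' = x / a := by linarith
  have e2 : y / b' = y / b := by linarith
  have ha' : 0 < a' := lt_of_lt_of_le ha haa
  have hb' : 0 < b' := lt_of_lt_of_le hb hbb
  constructor
  · rw [div_eq_div_iff ha'.ne' ha.ne'] at e1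
    exact mul_left_cancel₀ hx.ne' e1
  · rw [div_eq_div_iff hb'.ne' hb.ne'] at e2
    exact mul_left_cancel₀ hy.ne' e2

theorem diag_diag {a b a' b' : ℤ} (ha : a ≠ 0) (hb : b ≠ 0) (ha' : a' ≠ 0) (hb' : b' ≠ 0)
    (h1 : |a| = |b| + 1 ∨ |b| = |a| + 1) (h2 : |a'| = |b'| + 1 ∨ |b'| = |a'| + 1)
    (pa : a % 2 = 1) (pb : b % 2 = 0) (pa' : a' % 2 = 1) (pb' : b' % 2 = 0) {p : ℝ × ℝ}
    (h : p ∈ segment ℝ (pt (a, 0)) (pt (0, b)))
    (h' : p ∈ segment ℝ (pt (a', 0)) (pt (0, b'))) :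
    (a = a' ∧ b = b') ∨ (a = a' ∧ p = pt (a, 0)) ∨ (b = b' ∧ p = pt (0, b)) := by
  by_cases hx : p.1 = 0
  · right; right
    have e1 := diag_x0 ha h hx
    have e2 := diag_x0 ha' h' hx
    rw [e1] at e2
    have := pt_inj e2
    simp only [Prod.mk.injEq, true_and] at this
    exact ⟨this, e1⟩
  by_cases hy : p.2 = 0
  · right; left
    have e1 := diag_y0 hb h hy
    have e2 := diag_y0 hb' h' hy
    rw [e1] at e2
    have := pt_inj e2
    simp only [Prod.mk.injEq, and_true] at this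
    exact ⟨this, e1⟩
  left
  obtain ⟨t, t0, t1, rfl⟩ := seg_diag h
  obtain ⟨u, u0, u1, hu⟩ := seg_diag h'
  simp only [Prod.mk.injEq] at hu
  obtain ⟨e1, e2⟩ := hu
  simp only at hx hy
  have ht1 : 0 < 1 - t := by
    rcases lt_or_eq_of_le (sub_nonneg.mpr t1) with h | h
    · exact h
    · exact absurd (by rw [← h]; ring) hx
  have ht0 : 0 < t := by
    rcases lt_or_eq_of_le t0 with h | h
    · exact h
    · exact absurd (by rw [← h]; ring) hy
  have hu1 : 0 < 1 - u := by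
    rcases lt_or_eq_of_le (sub_nonneg.mpr u1) with h | h
    · exact h
    · exact absurd (by rw [e1, ← h]; ring) hx
  have hu0 : 0 < u := by
    rcases lt_or_eq_of_le u0 with h | h
    · exact h
    · exact absurd (by rw [e2, ← h]; ring) hy
  -- signs
  have haR : (a : ℝ) ≠ 0 := by exact_mod_cast ha
  have hbR : (b : ℝ) ≠ 0 := by exact_mod_cast hb
  have haR' : (a' : ℝ) ≠ 0 := by exact_mod_cast ha'
  have hbR' : (b' : ℝ) ≠ 0 := by exact_mod_cast hb'
  have A : (1 - t) * |(a : ℝ)| = (1 - u) * |(a' : ℝ)| := by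
    have := congrArg abs e1
    rwa [abs_mul, abs_mul, abs_of_pos ht1, abs_of_pos hu1] at this
  have B : t * |(b : ℝ)| = u * |(b' : ℝ)| := by
    have := congrArg abs e2
    rwa [abs_mul, abs_mul, abs_of_pos ht0, abs_of_pos hu0] at this
  have pa0 : 0 < |(a : ℝ)| := abs_pos.mpr haR
  have pb0 : 0 < |(b : ℝ)| := abs_pos.mpr hbR
  have pa0' : 0 < |(a' : ℝ)| := abs_pos.mpr haR'
  have pb0' : 0 < |(b' : ℝ)| := abs_pos.mpr hbR'
  have q1 : (1 - t) * |(a : ℝ)| / |(a : ℝ)| + t * |(b : ℝ)| / |(b : ℝ)| = 1 := by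
    field_simp
    ring
  have q2 : (1 - t) * |(a : ℝ)| / |(a' : ℝ)| + t * |(b : ℝ)| / |(b' : ℝ)| = 1 := by
    rw [A, B]
    field_simp
    ring
  -- comparison
  have key : |a| = |a'| ∧ |b| = |b'| := by
    have hcmp : (|a| ≤ |a'| ∧ |b| ≤ |b'|) ∨ (|a'| ≤ |a| ∧ |b'| ≤ |b|) := by
      have c1 := abs_cases a
      have c2 := abs_cases b
      have c3 := abs_cases a'
      have c4 := abs_cases b'
      omega
    rcases hcmp with ⟨c1, c2⟩ | ⟨c1, c2⟩
    · have c1' : |(a : ℝ)| ≤ |(a' : ℝ)| := by exact_mod_cast c1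
      have c2' : |(b : ℝ)| ≤ |(b' : ℝ)| := by exact_mod_cast c2
      obtain ⟨r1, r2⟩ := nested pa0 pb0 (mul_pos ht1 pa0) (mul_pos ht0 pb0) q1 q2 c1' c2'
      exact ⟨by exact_mod_cast r1, by exact_mod_cast r2⟩
    · have c1' : |(a' : ℝ)| ≤ |(a : ℝ)| := by exact_mod_cast c1
      have c2' : |(b' : ℝ)| ≤ |(b : ℝ)| := by exact_mod_cast c2
      obtain ⟨r1, r2⟩ := nested pa0' pb0' (mul_pos ht1 pa0) (mul_pos ht0 pb0) q2 q1 c1' c2'
      exact ⟨by exact_mod_cast r1.symm, by exact_mod_cast r2.symm⟩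
  constructor
  · rcases abs_eq_abs.mp key.1 with h | h
    · exact h
    · exfalso
      have : (a : ℝ) = -(a' : ℝ) := by exact_mod_cast h
      rw [this] at e1
      rcases lt_or_gt_of_ne haR' with h | h <;> nlinarith
  · rcases abs_eq_abs.mp key.2 with h | h
    · exact h
    · exfalso
      have : (b : ℝ) = -(b' : ℝ) := by exact_mod_cast h
      rw [this] at e2
      rcases lt_or_gt_of_ne hbR' with h | h <;> nlinarith

/-- a real number that is an integer and lies in `[k, k+1]` is `k` or `k+1` -/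
theorem int_between {k m : ℤ} (h1 : (k : ℝ) ≤ m) (h2 : (m : ℝ) ≤ k + 1) : m = k ∨ m = k + 1 := by
  have h1' : k ≤ m := by exact_mod_cast h1
  have h2' : m ≤ k + 1 := by exact_mod_cast h2
  omega

theorem host_vertex {P Q : ℤ × ℤ} (h : Host P Q) {R : ℤ × ℤ} (hR : HostV R)
    (hp : pt R ∈ segment ℝ (pt P) (pt Q)) : R = P ∨ R = Q := by
  obtain ⟨x, y⟩ := R
  cases h with
  | diag a b ha hb hab hpar hpar' =>
    rcases hR with ⟨h0, h1⟩ | ⟨h0, h1⟩
    · simp only at h0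
      subst h0
      right
      exact pt_inj (diag_x0 ha hp (by simp [pt]))
    · simp only at h1
      subst h1
      left
      exact pt_inj (diag_y0 hb hp (by simp [pt]))
  | horiz k hk =>
    obtain ⟨e1, e2, e3⟩ := seg_horiz hp
    simp only [pt, Int.cast_eq_zero] at e1 e2 e3
    subst e1
    rcases int_between e2 e3 with h | h
    · left; rw [h]
    · right; rw [h]
  | vert k hk =>
    obtain ⟨e1, e2, e3⟩ := seg_vert hp
    simp only [pt, Int.cast_eq_zero] at e1 e2 e3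
    subst e1
    rcases int_between e2 e3 with h | h
    · left; rw [h]
    · right; rw [h]

theorem diag_horiz {a b k : ℤ} (hb : b ≠ 0) {p : ℝ × ℝ}
    (hp : p ∈ segment ℝ (pt (a, 0)) (pt (0, b)))
    (hp' : p ∈ segment ℝ (pt (k, 0)) (pt (k + 1, 0))) :
    (a = k ∨ a = k + 1) ∧ p = pt (a, 0) := by
  obtain ⟨e1, e2, e3⟩ := seg_horiz hp'
  have h := diag_y0 hb hp e1
  rw [h] at e2 e3
  exact ⟨int_between e2 e3, h⟩

theorem diag_vert {a b k : ℤ} (ha : a ≠ 0) {p : ℝ × ℝ}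
    (hp : p ∈ segment ℝ (pt (a, 0)) (pt (0, b)))
    (hp' : p ∈ segment ℝ (pt (0, k)) (pt (0, k + 1))) :
    (b = k ∨ b = k + 1) ∧ p = pt (0, b) := by
  obtain ⟨e1, e2, e3⟩ := seg_vert hp'
  have h := diag_x0 ha hp e1
  rw [h] at e2 e3
  exact ⟨int_between e2 e3, h⟩

theorem host_edge {P Q P' Q' : ℤ × ℤ} (h : Host P Q) (h' : Host P' Q') {p : ℝ × ℝ}
    (hp : p ∈ segment ℝ (pt P) (pt Q)) (hp' : p ∈ segment ℝ (pt P') (pt Q')) :
    (P = P' ∧ Q = Q') ∨ ∃ R, (R = P ∨ R = Q) ∧ (R = P' ∨ R = Q') ∧ p = pt R := by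
  cases h with
  | diag a b ha hb hab hpar hpar' =>
    cases h' with
    | diag a' b' ha' hb' hab' hpa hpa' =>
      rcases diag_diag ha hb ha' hb' hab hab' hpar hpar' hpa hpa' hp hp' with ⟨e1, e2⟩ | ⟨e1, e2⟩ |
        ⟨e1, e2⟩
      · left; rw [e1, e2]; exact ⟨rfl, rfl⟩
      · right; exact ⟨(a, 0), Or.inl rfl, Or.inl (by rw [e1]), e2⟩
      · right; exact ⟨(0, b), Or.inr rfl, Or.inr (by rw [e1]), e2⟩
    | horiz k hk =>
      obtain ⟨e1, e2⟩ := diag_horiz hb hp hp'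
      right
      exact ⟨(a, 0), Or.inl rfl, by rcases e1 with h | h <;> simp [h], e2⟩
    | vert k hk =>
      obtain ⟨e1, e2⟩ := diag_vert ha hp hp'
      right
      exact ⟨(0, b), Or.inr rfl, by rcases e1 with h | h <;> simp [h], e2⟩
  | horiz k hk =>
    cases h' with
    | diag a' b' ha' hb' hab' hpa hpa' =>
      obtain ⟨e1, e2⟩ := diag_horiz hb' hp' hp
      right
      exact ⟨(a', 0), by rcases e1 with h | h <;> simp [h], Or.inl rfl, e2⟩
    | horiz l hl =>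
      obtain ⟨e1, e2, e3⟩ := seg_horiz hp
      obtain ⟨f1, f2, f3⟩ := seg_horiz hp'
      by_cases hkl : k = l
      · left; rw [hkl]; exact ⟨rfl, rfl⟩
      right
      have g1 : (k : ℝ) ≤ l + 1 := le_trans e2 f3
      have g2 : (l : ℝ) ≤ k + 1 := le_trans f2 e3
      have g1' : k ≤ l + 1 := by exact_mod_cast g1
      have g2' : l ≤ k + 1 := by exact_mod_cast g2
      have : k = l + 1 ∨ l = k + 1 := by omega
      rcases this with h | h
      · refine ⟨(k, 0), Or.inl rfl, Or.inr (by rw [h]), Prod.ext ?_ ?_⟩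
        · have : (k : ℝ) = l + 1 := by exact_mod_cast h
          simp only [pt]
          linarith
        · simp [pt, e1]
      · refine ⟨(l, 0), Or.inr (by rw [h]), Or.inl rfl, Prod.ext ?_ ?_⟩
        · have : (l : ℝ) = k + 1 := by exact_mod_cast h
          simp only [pt]
          linarith
        · simp [pt, e1]
    | vert l hl =>
      exfalso
      obtain ⟨e1, e2, e3⟩ := seg_horiz hp
      obtain ⟨f1, f2, f3⟩ := seg_vert hp'
      rw [f1] at e2 e3
      have g1 : k ≤ 0 := by exact_mod_cast e2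
      have g2 : 0 ≤ k + 1 := by exact_mod_cast e3
      omega
  | vert k hk =>
    cases h' with
    | diag a' b' ha' hb' hab' hpa hpa' =>
      obtain ⟨e1, e2⟩ := diag_vert ha' hp' hp
      right
      exact ⟨(0, b'), by rcases e1 with h | h <;> simp [h], Or.inr rfl, e2⟩
    | horiz l hl =>
      exfalso
      obtain ⟨e1, e2, e3⟩ := seg_vert hp
      obtain ⟨f1, f2, f3⟩ := seg_horiz hp'
      rw [f1] at e2 e3
      have g1 : k ≤ 0 := by exact_mod_cast e2
      have g2 : 0 ≤ k + 1 := by exact_mod_cast e3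
      omega
    | vert l hl =>
      obtain ⟨e1, e2, e3⟩ := seg_vert hp
      obtain ⟨f1, f2, f3⟩ := seg_vert hp'
      by_cases hkl : k = l
      · left; rw [hkl]; exact ⟨rfl, rfl⟩
      right
      have g1 : (k : ℝ) ≤ l + 1 := le_trans e2 f3
      have g2 : (l : ℝ) ≤ k + 1 := le_trans f2 e3
      have g1' : k ≤ l + 1 := by exact_mod_cast g1
      have g2' : l ≤ k + 1 := by exact_mod_cast g2
      have : k = l + 1 ∨ l = k + 1 := by omega
      rcases this with h | h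
      · refine ⟨(0, k), Or.inl rfl, Or.inr (by rw [h]), Prod.ext ?_ ?_⟩
        · simp [pt, e1]
        · have : (k : ℝ) = l + 1 := by exact_mod_cast h
          simp only [pt]
          linarith
      · refine ⟨(0, l), Or.inr (by rw [h]), Or.inl rfl, Prod.ext ?_ ?_⟩
        · simp [pt, e1]
        · have : (l : ℝ) = k + 1 := by exact_mod_cast h
          simp only [pt]
          linarith

/-- A graph whose edges are drawn along host edges is planar. -/
theorem planar_of_rel {V : Type*} (G : SimpleGraph V) (E : ℤ × ℤ → ℤ × ℤ → Prop)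
    (W : ℤ × ℤ → Prop)
    (hE : ∀ P Q P' Q' p, E P Q → E P' Q' → p ∈ segment ℝ (pt P) (pt Q) →
      p ∈ segment ℝ (pt P') (pt Q') →
      (P = P' ∧ Q = Q') ∨ ∃ R, (R = P ∨ R = Q) ∧ (R = P' ∨ R = Q') ∧ p = pt R)
    (hW : ∀ P Q R, E P Q → W R → pt R ∈ segment ℝ (pt P) (pt Q) → R = P ∨ R = Q)
    (f : V → ℤ × ℤ) (hf : Function.Injective f) (hv : ∀ v, W (f v))
    (he : ∀ a b, G.Adj a b → E (f a) (f b) ∨ E (f b) (f a)) : Planar G := by
  refine ⟨fun v => pt (f v), pt_inj.comp hf, ?_, ?_⟩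
  · intro a b w hab hw
    rcases he a b hab with h | h
    · rcases hW _ _ _ h (hv w) hw with h | h
      · left; exact hf h
      · right; exact hf h
    · rw [segment_symm] at hw
      rcases hW _ _ _ h (hv w) hw with h | h
      · right; exact hf h
      · left; exact hf h
  · rintro a b c d hab hcd hne p ⟨hp1, hp2⟩
    have main : ∀ a b c d : V, E (f a) (f b) → E (f c) (f d) → s(a, b) ≠ s(c, d) →
        p ∈ segment ℝ (pt (f a)) (pt (f b)) → p ∈ segment ℝ (pt (f c)) (pt (f d)) →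
        ∃ v, (v = a ∨ v = b) ∧ (v = c ∨ v = d) ∧ pt (f v) = p := by
      intro a b c d h1 h2 hne q1 q2
      rcases hE _ _ _ _ _ h1 h2 q1 q2 with ⟨r1, r2⟩ | ⟨R, r1, r2, r3⟩
      · exact absurd (by rw [hf r1, hf r2]) hne
      · rcases r1 with r1 | r1
        · refine ⟨a, Or.inl rfl, ?_, by rw [r3, r1]⟩
          rw [r1] at r2
          rcases r2 with r2 | r2
          · left; exact hf r2
          · right; exact hf r2
        · refine ⟨b, Or.inr rfl, ?_, by rw [r3, r1]⟩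
          rw [r1] at r2
          rcases r2 with r2 | r2
          · left; exact hf r2
          · right; exact hf r2
    simp only [Set.mem_image, Set.mem_inter_iff, Set.mem_insert_iff, Set.mem_singleton_iff]
    rcases he a b hab with h1 | h1 <;> rcases he c d hcd with h2 | h2
    · obtain ⟨v, v1, v2, v3⟩ := main a b c d h1 h2 hne hp1 hp2
      exact ⟨v, ⟨v1, v2⟩, v3⟩
    · rw [segment_symm] at hp2
      obtain ⟨v, v1, v2, v3⟩ := main a b d c h1 h2 (by rwa [Sym2.eq_swap (a := d)]) hp1 hp2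
      exact ⟨v, ⟨v1, v2.symm⟩, v3⟩
    · rw [segment_symm] at hp1
      obtain ⟨v, v1, v2, v3⟩ := main b a c d h1 h2 (by rwa [Sym2.eq_swap (a := b)]) hp1 hp2
      exact ⟨v, ⟨v1.symm, v2⟩, v3⟩
    · rw [segment_symm] at hp1 hp2
      obtain ⟨v, v1, v2, v3⟩ := main b a d c h1 h2
        (by rwa [Sym2.eq_swap (a := b), Sym2.eq_swap (a := d)]) hp1 hp2
      exact ⟨v, ⟨v1.symm, v2.symm⟩, v3⟩

theorem planar_of_host {V : Type*} (G : SimpleGraph V) (f : V → ℤ × ℤ)
    (hf : Function.Injective f) (hv : ∀ v, HostV (f v))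
    (he : ∀ a b, G.Adj a b → Host (f a) (f b) ∨ Host (f b) (f a)) : Planar G :=
  planar_of_rel G Host HostV (fun _ _ _ _ _ h h' hp hp' => host_edge h h' hp hp')
    (fun _ _ _ h hR hp => host_vertex h hR hp) f hf hv he

end Pool.Agent.Lib.MP_a8e10c_co
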