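import Mathlib
import Pool.Agent.Lib.MP_a8e10c_co.Defs
import Pool.Agent.Lib.MP_a8e10c_co.Host

namespace Pool.Agent.Lib.MP_a8e10c_co

/-- Edges of the book of quadrilaterals. -/
inductive BookE : ℤ × ℤ → ℤ × ℤ → Prop
  | base : BookE (0, 0) (1, 0)
  | left (k : ℤ) (hk : 1 ≤ k) : BookE (0, 0) (-k ^ 2, k)
  | mid (k : ℤ) (hk : 1 ≤ k) : BookE (-k ^ 2, k) (1 + k ^ 2, k)
  | right (k : ℤ) (hk : 1 ≤ k) : BookE (1, 0) (1 + k ^ 2, k)

/-- Vertices of the book. -/
inductive BookV : ℤ × ℤ → Prop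
  | o : BookV (0, 0)
  | i : BookV (1, 0)
  | left (k : ℤ) (hk : 1 ≤ k) : BookV (-k ^ 2, k)
  | right (k : ℤ) (hk : 1 ≤ k) : BookV (1 + k ^ 2, k)

theorem seg_base {p : ℝ × ℝ} (h : p ∈ segment ℝ (pt (0, 0)) (pt (1, 0))) :
    p.2 = 0 ∧ 0 ≤ p.1 ∧ p.1 ≤ 1 := by
  rw [mem_seg] at h
  obtain ⟨t, h0, h1, rfl⟩ := h
  simp only [pt]
  push_cast
  refine ⟨by ring, by nlinarith, by nlinarith⟩

theorem seg_left {k : ℤ} (hk : 1 ≤ k) {p : ℝ × ℝ}
    (h : p ∈ segment ℝ (pt (0, 0)) (pt (-k ^ 2, k))) :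
    p.1 = -(k * p.2) ∧ 0 ≤ p.2 ∧ p.2 ≤ k := by
  rw [mem_seg] at h
  obtain ⟨t, h0, h1, rfl⟩ := h
  have hk' : (1 : ℝ) ≤ k := by exact_mod_cast hk
  simp only [pt]
  push_cast
  refine ⟨by ring, by nlinarith, by nlinarith⟩

theorem seg_right {k : ℤ} (hk : 1 ≤ k) {p : ℝ × ℝ}
    (h : p ∈ segment ℝ (pt (1, 0)) (pt (1 + k ^ 2, k))) :
    p.1 = 1 + k * p.2 ∧ 0 ≤ p.2 ∧ p.2 ≤ k := by
  rw [mem_seg] at h
  obtain ⟨t, h0, h1, rfl⟩ := h
  have hk' : (1 : ℝ) ≤ k := by exact_mod_cast hk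
  simp only [pt]
  push_cast
  refine ⟨by ring, by nlinarith, by nlinarith⟩

theorem seg_mid {k : ℤ} (hk : 1 ≤ k) {p : ℝ × ℝ}
    (h : p ∈ segment ℝ (pt (-k ^ 2, k)) (pt (1 + k ^ 2, k))) :
    p.2 = k ∧ -(k : ℝ) ^ 2 ≤ p.1 ∧ p.1 ≤ 1 + (k : ℝ) ^ 2 := by
  rw [mem_seg] at h
  obtain ⟨t, h0, h1, rfl⟩ := h
  have hk' : (1 : ℝ) ≤ k := by exact_mod_cast hk
  simp only [pt]
  push_cast
  refine ⟨by ring, by nlinarith, by nlinarith⟩

theorem book_edge {P Q P' Q' : ℤ × ℤ} (h : BookE P Q) (h' : BookE P' Q') {p : ℝ × ℝ}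
    (hp : p ∈ segment ℝ (pt P) (pt Q)) (hp' : p ∈ segment ℝ (pt P') (pt Q')) :
    (P = P' ∧ Q = Q') ∨ ∃ R, (R = P ∨ R = Q) ∧ (R = P' ∨ R = Q') ∧ p = pt R := by
  obtain ⟨x, y⟩ := p
  have LB : ∀ k : ℤ, 1 ≤ k → (x, y) ∈ segment ℝ (pt (0, 0)) (pt (-k ^ 2, k)) →
      (x, y) ∈ segment ℝ (pt (0, 0)) (pt (1, 0)) → (x, y) = pt (0, 0) := by
    intro k hk h1 h2
    obtain ⟨a1, a2, a3⟩ := seg_left hk h1
    obtain ⟨b1, b2, b3⟩ := seg_base h2
    simp only at a1 b1
    subst b1
    simp [pt, a1]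
  have RB : ∀ k : ℤ, 1 ≤ k → (x, y) ∈ segment ℝ (pt (1, 0)) (pt (1 + k ^ 2, k)) →
      (x, y) ∈ segment ℝ (pt (0, 0)) (pt (1, 0)) → (x, y) = pt (1, 0) := by
    intro k hk h1 h2
    obtain ⟨a1, a2, a3⟩ := seg_right hk h1
    obtain ⟨b1, b2, b3⟩ := seg_base h2
    simp only at a1 b1
    subst b1
    simp [pt, a1]
  have MB : ∀ k : ℤ, 1 ≤ k → (x, y) ∈ segment ℝ (pt (-k ^ 2, k)) (pt (1 + k ^ 2, k)) →
      (x, y) ∈ segment ℝ (pt (0, 0)) (pt (1, 0)) → False := by
    intro k hk h1 h2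
    obtain ⟨a1, a2, a3⟩ := seg_mid hk h1
    obtain ⟨b1, b2, b3⟩ := seg_base h2
    simp only at a1 b1
    rw [b1] at a1
    have : (0 : ℤ) = k := by exact_mod_cast a1
    omega
  have LM : ∀ k l : ℤ, 1 ≤ k → 1 ≤ l → (x, y) ∈ segment ℝ (pt (0, 0)) (pt (-k ^ 2, k)) →
      (x, y) ∈ segment ℝ (pt (-l ^ 2, l)) (pt (1 + l ^ 2, l)) →
      k = l ∧ (x, y) = pt (-k ^ 2, k) := by
    intro k l hk hl h1 h2
    obtain ⟨a1, a2, a3⟩ := seg_left hk h1
    obtain ⟨b1, b2, b3⟩ := seg_mid hl h2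
    simp only at a1 a2 a3 b1 b2 b3
    subst b1
    have hl' : (1 : ℝ) ≤ l := by exact_mod_cast hl
    have : (k : ℝ) ≤ l := by nlinarith
    have h1 : k ≤ l := by exact_mod_cast this
    have h2 : l ≤ k := by exact_mod_cast a3
    have h3 : k = l := le_antisymm h1 h2
    subst h3
    refine ⟨rfl, ?_⟩
    simp only [pt, Prod.mk.injEq]
    push_cast
    exact ⟨by rw [a1]; ring, trivial⟩
  have RM : ∀ k l : ℤ, 1 ≤ k → 1 ≤ l → (x, y) ∈ segment ℝ (pt (1, 0)) (pt (1 + k ^ 2, k)) →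
      (x, y) ∈ segment ℝ (pt (-l ^ 2, l)) (pt (1 + l ^ 2, l)) →
      k = l ∧ (x, y) = pt (1 + k ^ 2, k) := by
    intro k l hk hl h1 h2
    obtain ⟨a1, a2, a3⟩ := seg_right hk h1
    obtain ⟨b1, b2, b3⟩ := seg_mid hl h2
    simp only at a1 a2 a3 b1 b2 b3
    subst b1
    have hl' : (1 : ℝ) ≤ l := by exact_mod_cast hl
    have : (k : ℝ) ≤ l := by nlinarith
    have h1 : k ≤ l := by exact_mod_cast this
    have h2 : l ≤ k := by exact_mod_cast a3
    have h3 : k = l := le_antisymm h1 h2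
    subst h3
    refine ⟨rfl, ?_⟩
    simp only [pt, Prod.mk.injEq]
    push_cast
    exact ⟨by rw [a1]; ring, trivial⟩
  have LR : ∀ k l : ℤ, 1 ≤ k → 1 ≤ l → (x, y) ∈ segment ℝ (pt (0, 0)) (pt (-k ^ 2, k)) →
      (x, y) ∈ segment ℝ (pt (1, 0)) (pt (1 + l ^ 2, l)) → False := by
    intro k l hk hl h1 h2
    obtain ⟨a1, a2, a3⟩ := seg_left hk h1
    obtain ⟨b1, b2, b3⟩ := seg_right hl h2
    simp only at a1 a2 a3 b1 b2 b3
    have hl' : (1 : ℝ) ≤ l := by exact_mod_cast hl
    have hk' : (1 : ℝ) ≤ k := by exact_mod_cast hk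
    nlinarith [mul_nonneg (by linarith : (0:ℝ) ≤ k) a2, mul_nonneg (by linarith : (0:ℝ) ≤ l) a2]
  cases h with
  | base =>
    cases h' with
    | base => left; exact ⟨rfl, rfl⟩
    | left l hl => right; exact ⟨(0, 0), Or.inl rfl, Or.inl rfl, LB l hl hp' hp⟩
    | mid l hl => exact (MB l hl hp' hp).elim
    | right l hl => right; exact ⟨(1, 0), Or.inr rfl, Or.inl rfl, RB l hl hp' hp⟩
  | left k hk =>
    cases h' with
    | base => right; exact ⟨(0, 0), Or.inl rfl, Or.inl rfl, LB k hk hp hp'⟩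
    | left l hl =>
      by_cases hkl : k = l
      · left; subst hkl; exact ⟨rfl, rfl⟩
      right
      refine ⟨(0, 0), Or.inl rfl, Or.inl rfl, ?_⟩
      obtain ⟨a1, a2, a3⟩ := seg_left hk hp
      obtain ⟨b1, b2, b3⟩ := seg_left hl hp'
      simp only at a1 b1
      have hne : (k : ℝ) - l ≠ 0 := by
        intro h
        apply hkl
        have : (k : ℝ) = l := by linarith
        exact_mod_cast this
      have hy : y = 0 := by
        have : ((k : ℝ) - l) * y = 0 := by linarith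
        rcases mul_eq_zero.mp this with h | h
        · exact absurd h hne
        · exact h
      subst hy
      simp [pt, a1]
    | mid l hl =>
      right
      obtain ⟨e, f⟩ := LM k l hk hl hp hp'
      subst e
      exact ⟨(-k ^ 2, k), Or.inr rfl, Or.inl rfl, f⟩
    | right l hl => exact (LR k l hk hl hp hp').elim
  | mid k hk =>
    cases h' with
    | base => exact (MB k hk hp hp').elim
    | left l hl =>
      right
      obtain ⟨e, f⟩ := LM l k hl hk hp' hp
      subst e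
      exact ⟨(-l ^ 2, l), Or.inl rfl, Or.inr rfl, f⟩
    | mid l hl =>
      left
      obtain ⟨a1, a2, a3⟩ := seg_mid hk hp
      obtain ⟨b1, b2, b3⟩ := seg_mid hl hp'
      have : (k : ℝ) = l := by rw [← a1, ← b1]
      have : k = l := by exact_mod_cast this
      subst this
      exact ⟨rfl, rfl⟩
    | right l hl =>
      right
      obtain ⟨e, f⟩ := RM l k hl hk hp' hp
      subst e
      exact ⟨(1 + l ^ 2, l), Or.inr rfl, Or.inr rfl, f⟩
  | right k hk =>
    cases h' with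
    | base => right; exact ⟨(1, 0), Or.inl rfl, Or.inr rfl, RB k hk hp hp'⟩
    | left l hl => exact (LR l k hl hk hp' hp).elim
    | mid l hl =>
      right
      obtain ⟨e, f⟩ := RM k l hk hl hp hp'
      subst e
      exact ⟨(1 + k ^ 2, k), Or.inr rfl, Or.inr rfl, f⟩
    | right l hl =>
      by_cases hkl : k = l
      · left; subst hkl; exact ⟨rfl, rfl⟩
      right
      refine ⟨(1, 0), Or.inl rfl, Or.inl rfl, ?_⟩
      obtain ⟨a1, a2, a3⟩ := seg_right hk hp
      obtain ⟨b1, b2, b3⟩ := seg_right hl hp'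
      simp only at a1 b1
      have hne : (k : ℝ) - l ≠ 0 := by
        intro h
        apply hkl
        have : (k : ℝ) = l := by linarith
        exact_mod_cast this
      have hy : y = 0 := by
        have : ((k : ℝ) - l) * y = 0 := by linarith
        rcases mul_eq_zero.mp this with h | h
        · exact absurd h hne
        · exact h
      subst hy
      simp [pt, a1]

theorem book_vertex {P Q : ℤ × ℤ} (h : BookE P Q) {R : ℤ × ℤ} (hR : BookV R)
    (hp : pt R ∈ segment ℝ (pt P) (pt Q)) : R = P ∨ R = Q := by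
  cases h with
  | base =>
    obtain ⟨a1, a2, a3⟩ := seg_base hp
    simp only [pt] at a1 a2 a3
    cases hR with
    | o => left; rfl
    | i => right; rfl
    | left l hl => exfalso; have : l = 0 := by exact_mod_cast a1
                   omega
    | right l hl => exfalso; have : l = 0 := by exact_mod_cast a1
                    omega
  | left k hk =>
    obtain ⟨a1, a2, a3⟩ := seg_left hk hp
    simp only [pt] at a1 a2 a3
    cases hR with
    | o => left; rfl
    | i => exfalso; simp at a1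
    | left l hl =>
      right
      have h1 : -l ^ 2 = -(k * l) := by exact_mod_cast a1
      have h2 : l * (l - k) = 0 := by linarith
      rcases mul_eq_zero.mp h2 with h | h
      · omega
      · have : l = k := by omega
        rw [this]
    | right l hl =>
      exfalso
      have h1 : 1 + l ^ 2 = -(k * l) := by exact_mod_cast a1
      nlinarith [mul_pos (by omega : 0 < k) (by omega : 0 < l)]
  | mid k hk =>
    obtain ⟨a1, a2, a3⟩ := seg_mid hk hp
    simp only [pt] at a1 a2 a3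
    cases hR with
    | o => exfalso; have : 0 = k := by exact_mod_cast a1
           omega
    | i => exfalso; have : 0 = k := by exact_mod_cast a1
           omega
    | left l hl => left; have : l = k := by exact_mod_cast a1
                   rw [this]
    | right l hl => right; have : l = k := by exact_mod_cast a1
                    rw [this]
  | right k hk =>
    obtain ⟨a1, a2, a3⟩ := seg_right hk hp
    simp only [pt] at a1 a2 a3
    cases hR with
    | o => exfalso; simp at a1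
    | i => left; rfl
    | left l hl =>
      exfalso
      have h1 : -l ^ 2 = 1 + (k * l) := by exact_mod_cast a1
      nlinarith [mul_pos (by omega : 0 < k) (by omega : 0 < l)]
    | right l hl =>
      right
      have h1 : 1 + l ^ 2 = 1 + (k * l) := by exact_mod_cast a1
      have h2 : l * (l - k) = 0 := by linarith
      rcases mul_eq_zero.mp h2 with h | h
      · omega
      · have : l = k := by omega
        rw [this]

theorem planar_of_book {V : Type*} (G : SimpleGraph V) (f : V → ℤ × ℤ)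
    (hf : Function.Injective f) (hv : ∀ v, BookV (f v))
    (he : ∀ a b, G.Adj a b → BookE (f a) (f b) ∨ BookE (f b) (f a)) : Planar G :=
  planar_of_rel G BookE BookV (fun _ _ _ _ _ h h' hp hp' => book_edge h h' hp hp')
    (fun _ _ _ h hR hp => book_vertex h hR hp) f hf hv he

end Pool.Agent.Lib.MP_a8e10c_co
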