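import Mathlib
import Pool.Agent.Lib.MP_a8e10c_co.Defs

/-!
# Triangle-free straight-line plane graphs have at most `2 n` edges

Every oriented edge is assigned a token `(v, k)` with `v` a vertex and `k` one of four kinds, and
distinct oriented edges get distinct tokens.
-/

namespace Pool.Agent.Lib.MP_a8e10c_co

/-- slope of the line through two points -/
noncomputable def slp {V : Type*} (X Y : V → ℝ) (a b : V) : ℝ := (Y b - Y a) / (X b - X a)

/-- height over `x` of the line through two points -/
noncomputable def hgt {V : Type*} (X Y : V → ℝ) (a b : V) (x : ℝ) : ℝ :=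
  Y a + slp X Y a b * (x - X a)

/-- A plane system: coordinates with distinct abscissas and no crossings. -/
structure Sys {V : Type*} (G : SimpleGraph V) where
  X : V → ℝ
  Y : V → ℝ
  inj : Function.Injective X
  vc : ∀ a b w, G.Adj a b → X a < X w → X w < X b → hgt X Y a b (X w) ≠ Y w
  ec : ∀ a b c d, G.Adj a b → G.Adj c d → (a, b) ≠ (c, d) →
    ∀ x, X a < x → X c < x → x < X b → x < X d → hgt X Y a b x ≠ hgt X Y c d x

variable {V : Type*} {G : SimpleGraph V}

theorem hgt_left (X Y : V → ℝ) (a b : V) : hgt X Y a b (X a) = Y a := by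
  simp [hgt]

theorem hgt_right (X Y : V → ℝ) (a b : V) (h : X a ≠ X b) : hgt X Y a b (X b) = Y b := by
  have : X b - X a ≠ 0 := sub_ne_zero.mpr (Ne.symm h)
  simp only [hgt, slp]
  field_simp
  ring

theorem hgt_symm (X Y : V → ℝ) (a b : V) (h : X a ≠ X b) (x : ℝ) :
    hgt X Y a b x = hgt X Y b a x := by
  have h1 : X b - X a ≠ 0 := sub_ne_zero.mpr (Ne.symm h)
  have h2 : X a - X b ≠ 0 := sub_ne_zero.mpr h
  simp only [hgt, slp]
  field_simp
  ring

theorem hgt_affine (X Y : V → ℝ) (a b : V) (s t l : ℝ) :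
    hgt X Y a b ((1 - l) * s + l * t) = (1 - l) * hgt X Y a b s + l * hgt X Y a b t := by
  simp only [hgt]
  ring

theorem hgt_lt_iff (X Y : V → ℝ) (a b c : V) {x : ℝ} (hx : X a < x) :
    hgt X Y a b x < hgt X Y a c x ↔ slp X Y a b < slp X Y a c := by
  simp only [hgt]
  have : 0 < x - X a := by linarith
  constructor
  · intro h
    by_contra h'
    push Not at h'
    nlinarith
  · intro h
    nlinarith

namespace Sys

variable (S : Sys G)

/-- reflection in a vertical line -/
noncomputable def refl : Sys G where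
  X v := - S.X v
  Y := S.Y
  inj := fun a b h => S.inj (by simpa using h)
  vc := by
    intro a b w hab h1 h2
    have h1' : S.X w < S.X a := by linarith
    have h2' : S.X b < S.X w := by linarith
    have := S.vc b a w hab.symm h2' h1'
    have hne : S.X b ≠ S.X a := by linarith
    have e : hgt (fun v => - S.X v) S.Y a b (- S.X w) = hgt S.X S.Y b a (S.X w) := by
      have h3 : S.X a - S.X b ≠ 0 := sub_ne_zero.mpr hne.symm
      have h4 : - S.X b - - S.X a ≠ 0 := by
        intro h
        apply h3
        linarith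
      simp only [hgt, slp]
      field_simp
      ring
    rw [e]
    exact this
  ec := by
    intro a b c d hab hcd hne x h1 h2 h3 h4
    have e : ∀ u v, S.X u ≠ S.X v →
        hgt (fun v => - S.X v) S.Y u v x = hgt S.X S.Y v u (-x) := by
      intro u v huv
      have h3 : S.X u - S.X v ≠ 0 := sub_ne_zero.mpr huv
      have h4 : - S.X v - - S.X u ≠ 0 := by
        intro h
        apply h3
        linarith
      simp only [hgt, slp]
      field_simp
      ring
    rw [e a b (by linarith), e c d (by linarith)]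
    refine S.ec b a d c hab.symm hcd.symm ?_ (-x) (by linarith) (by linarith) (by linarith)
      (by linarith)
    intro h
    simp only [Prod.mk.injEq] at h
    exact hne (by rw [h.1, h.2])

theorem refl_X (v : V) : S.refl.X v = - S.X v := rfl
theorem refl_Y (v : V) : S.refl.Y v = S.Y v := rfl

theorem refl_hgt {a b : V} (h : S.X a ≠ S.X b) (x : ℝ) :
    hgt S.refl.X S.refl.Y a b (-x) = hgt S.X S.Y b a x := by
  have h3 : S.X a - S.X b ≠ 0 := sub_ne_zero.mpr h
  have h4 : - S.X b - - S.X a ≠ 0 := by
    intro h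
    apply h3
    linarith
  simp only [hgt, slp, refl_X, refl_Y]
  field_simp
  ring

/-- No crossings. -/
theorem nc {a b c d : V} (hab : G.Adj a b) (hcd : G.Adj c d) {s t : ℝ}
    (s1 : S.X a ≤ s) (s2 : s ≤ S.X b) (s3 : S.X c ≤ s) (s4 : s ≤ S.X d)
    (t1 : S.X a ≤ t) (t2 : t ≤ S.X b) (t3 : S.X c ≤ t) (t4 : t ≤ S.X d)
    (h : hgt S.X S.Y a b s < hgt S.X S.Y c d s) : hgt S.X S.Y a b t ≤ hgt S.X S.Y c d t := by
  by_contra hcon
  push Not at hcon
  set D := fun x => hgt S.X S.Y c d x - hgt S.X S.Y a b x with hD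
  have ds : 0 < D s := by simp only [hD]; linarith
  have dt : D t < 0 := by simp only [hD]; linarith
  set l := D s / (D s - D t) with hl
  have hden : 0 < D s - D t := by linarith
  have l0 : 0 < l := div_pos ds hden
  have l1 : l < 1 := by rw [hl, div_lt_one hden]; linarith
  have key : hgt S.X S.Y a b ((1 - l) * s + l * t) = hgt S.X S.Y c d ((1 - l) * s + l * t) := by
    rw [hgt_affine, hgt_affine]
    have : (1 - l) * D s + l * D t = 0 := by
      rw [hl]
      field_simp
      ring
    simp only [hD] at this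
    linarith
  have hst : s ≠ t := by
    rintro rfl
    linarith
  have hne : (a, b) ≠ (c, d) := by
    rintro h'
    simp only [Prod.mk.injEq] at h'
    obtain ⟨rfl, rfl⟩ := h'
    exact lt_irrefl _ h
  have hbetween : ∀ z, z ≤ s → z ≤ t → z < (1 - l) * s + l * t := by
    intro z h1 h2
    rcases lt_or_gt_of_ne hst with h3 | h3
    · nlinarith
    · nlinarith
  have hbetween' : ∀ z, s ≤ z → t ≤ z → (1 - l) * s + l * t < z := by
    intro z h1 h2
    rcases lt_or_gt_of_ne hst with h3 | h3
    · nlinarith
    · nlinarith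
  exact S.ec a b c d hab hcd hne _ (hbetween _ s1 t1) (hbetween _ s3 t3) (hbetween' _ s2 t2)
    (hbetween' _ s4 t4) key

theorem slp_inj {a b c : V} (hab : G.Adj a b) (hac : G.Adj a c) (h1 : S.X a < S.X b)
    (h2 : S.X a < S.X c) (h : slp S.X S.Y a b = slp S.X S.Y a c) : b = c := by
  by_contra hne
  have hmin : S.X a < min (S.X b) (S.X c) := lt_min h1 h2
  refine S.ec a b a c hab hac (by simpa using hne) ((S.X a + min (S.X b) (S.X c)) / 2)
    (by linarith) (by linarith) ?_ ?_ ?_
  · have := min_le_left (S.X b) (S.X c)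
    linarith
  · have := min_le_right (S.X b) (S.X c)
    linarith
  · simp only [hgt, h]

/-- the right neighbours `b`, `c` of `a` are consecutive in the order of slopes -/
structure Consec (a b c : V) : Prop where
  ab : G.Adj a b
  ac : G.Adj a c
  xb : S.X a < S.X b
  xc : S.X a < S.X c
  lt : slp S.X S.Y a b < slp S.X S.Y a c
  none : ∀ d, G.Adj a d → S.X a < S.X d → slp S.X S.Y a b < slp S.X S.Y a d →
    slp S.X S.Y a c ≤ slp S.X S.Y a d

/-- `v` lies in the wedge between the edges `ab` and `ac` -/
structure InReg (a b c v : V) : Prop where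
  xa : S.X a < S.X v
  xb : S.X v ≤ S.X b
  xc : S.X v ≤ S.X c
  lo : hgt S.X S.Y a b (S.X v) ≤ S.Y v
  hi : S.Y v ≤ hgt S.X S.Y a c (S.X v)

/-- `v` is the first vertex of the wedge -/
structure First (a b c v : V) : Prop where
  mem : S.InReg a b c v
  first : ∀ w, S.InReg a b c w → S.X v ≤ S.X w

/-- No edge enters the wedge before its first vertex. -/
theorem gl {a b c v u w : V} (hc : S.Consec a b c) (hf : S.First a b c v) (huw : G.Adj u w)
    (hu : S.X u < S.X v) (hw : S.X v ≤ S.X w)
    (h1 : hgt S.X S.Y a b (S.X v) < hgt S.X S.Y u w (S.X v))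
    (h2 : hgt S.X S.Y u w (S.X v) < hgt S.X S.Y a c (S.X v)) : False := by
  have xa := hf.mem.xa
  have xb := hf.mem.xb
  have xc := hf.mem.xc
  rcases lt_trichotomy (S.X u) (S.X a) with h | h | h
  · have hv := S.vc u w a huw h (lt_of_lt_of_le xa hw)
    rcases lt_or_gt_of_ne hv with h' | h'
    · -- below `a`
      have := S.nc huw hc.ab (s := S.X a) (t := S.X v) h.le (xa.le.trans hw) le_rfl hc.xb.le
        hu.le hw xa.le xb (by rw [hgt_left]; exact h')
      linarith
    · have := S.nc hc.ac huw (s := S.X a) (t := S.X v) le_rfl hc.xc.le h.le (xa.le.trans hw)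
        xa.le xc hu.le hw (by rw [hgt_left]; exact h')
      linarith
  · have hua : u = a := S.inj h
    subst hua
    have g1 := (hgt_lt_iff S.X S.Y u b w xa).mp h1
    have g2 := (hgt_lt_iff S.X S.Y u w c xa).mp h2
    have g3 := hc.none w huw (lt_of_lt_of_le xa hw) g1
    linarith
  · have hnot : ¬ S.InReg a b c u := fun hin => by
      have := hf.first u hin
      linarith
    have hor : S.Y u < hgt S.X S.Y a b (S.X u) ∨ hgt S.X S.Y a c (S.X u) < S.Y u := by
      by_contra hcon
      push Not at hcon
      exact hnot ⟨h, by linarith, by linarith, hcon.1, hcon.2⟩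
    rcases hor with h' | h'
    · have := S.nc huw hc.ab (s := S.X u) (t := S.X v) le_rfl (hu.le.trans hw) h.le
        (by linarith) hu.le hw xa.le xb (by rw [hgt_left]; exact h')
      linarith
    · have := S.nc hc.ac huw (s := S.X u) (t := S.X v) h.le (by linarith) le_rfl
        (hu.le.trans hw) xa.le xc hu.le hw (by rw [hgt_left]; exact h')
      linarith

theorem consec_ne {a b c : V} (hc : S.Consec a b c) : b ≠ c := by
  rintro rfl
  exact lt_irrefl _ hc.lt

theorem first_lt_b {a b c v : V} (hf : S.First a b c v) (hb : v ≠ b) : S.X v < S.X b :=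
  lt_of_le_of_ne hf.mem.xb (fun h => hb (S.inj h))

theorem first_lt_c {a b c v : V} (hf : S.First a b c v) (hb : v ≠ c) : S.X v < S.X c :=
  lt_of_le_of_ne hf.mem.xc (fun h => hb (S.inj h))

theorem first_lo {a b c v : V} (hc : S.Consec a b c) (hf : S.First a b c v) (hb : v ≠ b) :
    hgt S.X S.Y a b (S.X v) < S.Y v :=
  lt_of_le_of_ne hf.mem.lo (S.vc a b v hc.ab hf.mem.xa (S.first_lt_b hf hb))

theorem first_hi {a b c v : V} (hc : S.Consec a b c) (hf : S.First a b c v) (hb : v ≠ c) :
    S.Y v < hgt S.X S.Y a c (S.X v) :=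
  lt_of_le_of_ne hf.mem.hi (S.vc a c v hc.ac hf.mem.xa (S.first_lt_c hf hb)).symm

/-- Tokens of the edges pointing to the right. Kinds: `(false, false)` is up, `(false, true)` is
down, `(true, false)` is the near side and `(true, true)` is the far side. -/
inductive Tok (a b : V) : V → Bool × Bool → Prop
  | top (h : ∀ c, G.Adj a c → S.X a < S.X c → slp S.X S.Y a c ≤ slp S.X S.Y a b) :
      Tok a b a (true, false)
  | up (c : V) (h : S.Consec a b c) (h2 : S.First a b c b) : Tok a b b (false, false)
  | down (c : V) (h : S.Consec a b c) (h2 : S.First a b c c) : Tok a b c (false, true)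
  | inside (c v : V) (h : S.Consec a b c) (h2 : S.First a b c v) (hb : v ≠ b) (hc : v ≠ c) :
      Tok a b v (true, true)

theorem tok_exists [Finite V] {a b : V} (hab : G.Adj a b) (hx : S.X a < S.X b) :
    ∃ v k, S.Tok a b v k := by
  classical
  have := Fintype.ofFinite V
  by_cases ht : ∀ c, G.Adj a c → S.X a < S.X c → slp S.X S.Y a c ≤ slp S.X S.Y a b
  · exact ⟨a, _, Tok.top ht⟩
  · push Not at ht
    obtain ⟨c0, h0, h1, h2⟩ := ht
    obtain ⟨c, hcmem, hcmin⟩ := Finset.exists_min_image
      (Finset.univ.filter fun d => G.Adj a d ∧ S.X a < S.X d ∧ slp S.X S.Y a b < slp S.X S.Y a d)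
      (slp S.X S.Y a) ⟨c0, by simp [h0, h1, h2]⟩
    simp only [Finset.mem_filter, Finset.mem_univ, true_and, and_imp] at hcmem hcmin
    have hcon : S.Consec a b c := ⟨hab, hcmem.1, hx, hcmem.2.1, hcmem.2.2, hcmin⟩
    have hne : ∃ v, S.InReg a b c v := by
      rcases le_total (S.X b) (S.X c) with h | h
      · refine ⟨b, hx, le_rfl, h, ?_, ?_⟩
        · rw [hgt_right _ _ _ _ (ne_of_lt hx)]
        · rw [← hgt_right S.X S.Y a b (ne_of_lt hx)]
          exact ((hgt_lt_iff S.X S.Y a b c hx).mpr hcon.lt).le
      · refine ⟨c, hcon.xc, h, le_rfl, ?_, ?_⟩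
        · rw [← hgt_right S.X S.Y a c (ne_of_lt hcon.xc)]
          exact ((hgt_lt_iff S.X S.Y a b c hcon.xc).mpr hcon.lt).le
        · rw [hgt_right _ _ _ _ (ne_of_lt hcon.xc)]
    obtain ⟨v0, hv0⟩ := hne
    obtain ⟨v, hvmem, hvmin⟩ := Finset.exists_min_image
      (Finset.univ.filter fun d => S.InReg a b c d) S.X ⟨v0, by simp [hv0]⟩
    simp only [Finset.mem_filter, Finset.mem_univ, true_and] at hvmem hvmin
    have hfirst : S.First a b c v := ⟨hvmem, hvmin⟩
    by_cases hb : v = b
    · subst hb
      exact ⟨v, _, Tok.up c hcon hfirst⟩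
    by_cases hc : v = c
    · subst hc
      exact ⟨v, _, Tok.down v hcon hfirst⟩
    exact ⟨v, _, Tok.inside c v hcon hfirst hb hc⟩

theorem tok_inj {a b a' b' v : V} {k : Bool × Bool} (hab : G.Adj a b) (hx : S.X a < S.X b)
    (hab' : G.Adj a' b') (hx' : S.X a' < S.X b') (h : S.Tok a b v k) (h' : S.Tok a' b' v k) :
    a = a' ∧ b = b' := by
  cases h with
  | top ht =>
    cases h' with
    | top ht' =>
      refine ⟨rfl, S.slp_inj hab hab' hx hx' (le_antisymm (ht' b hab hx) (ht b' hab' hx'))⟩
  | up c hc hf =>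
    cases h' with
    | up c' hc' hf' =>
      refine ⟨?_, rfl⟩
      have hxc := S.first_lt_c hf (S.consec_ne hc)
      have hxc' := S.first_lt_c hf' (S.consec_ne hc')
      have e := hgt_right S.X S.Y a b (ne_of_lt hx)
      have e' := hgt_right S.X S.Y a' b (ne_of_lt hx')
      have k1 := S.first_hi hc hf (S.consec_ne hc)
      have k2 := S.first_hi hc' hf' (S.consec_ne hc')
      rcases lt_trichotomy (hgt S.X S.Y a c (S.X b)) (hgt S.X S.Y a' c' (S.X b)) with h | h | h
      · exact (S.gl hc' hf' hc.ac hx hxc.le (by rw [e']; exact k1) h).elim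
      · by_contra hne
        exact S.ec a c a' c' hc.ac hc'.ac (fun h => hne (by simpa using congrArg Prod.fst h))
          (S.X b) hx hx' hxc hxc' h
      · exact (S.gl hc hf hc'.ac hx' hxc'.le (by rw [e]; exact k2) h).elim
  | down c hc hf =>
    cases h' with
    | down c' hc' hf' =>
      have hxb := S.first_lt_b hf (S.consec_ne hc).symm
      have hxb' := S.first_lt_b hf' (S.consec_ne hc').symm
      have e := hgt_right S.X S.Y a v (ne_of_lt hc.xc)
      have e' := hgt_right S.X S.Y a' v (ne_of_lt hc'.xc)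
      have k1 := S.first_lo hc hf (S.consec_ne hc).symm
      have k2 := S.first_lo hc' hf' (S.consec_ne hc').symm
      rcases lt_trichotomy (hgt S.X S.Y a b (S.X v)) (hgt S.X S.Y a' b' (S.X v)) with h | h | h
      · exact (S.gl hc hf hc'.ab hc'.xc hxb'.le h (by rw [e]; exact k2)).elim
      · by_contra hne
        refine S.ec a b a' b' hc.ab hc'.ab (fun h => hne ?_) (S.X v) hc.xc hc'.xc hxb hxb' h
        simpa using h
      · exact (S.gl hc' hf' hc.ab hc.xc hxb.le h (by rw [e']; exact k1)).elim
  | inside c w hc hf hb1 hc1 =>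
    cases h' with
    | inside c' w' hc' hf' hb1' hc1' =>
      have hxb := S.first_lt_b hf hb1
      have hxb' := S.first_lt_b hf' hb1'
      have k1 := S.first_lo hc hf hb1
      have k2 := S.first_lo hc' hf' hb1'
      have k3 := S.first_hi hc hf hc1
      have k4 := S.first_hi hc' hf' hc1'
      rcases lt_trichotomy (hgt S.X S.Y a b (S.X v)) (hgt S.X S.Y a' b' (S.X v)) with h | h | h
      · exact (S.gl hc hf hc'.ab hf'.mem.xa hxb'.le h (by linarith)).elim
      · by_contra hne
        refine S.ec a b a' b' hc.ab hc'.ab (fun h => hne ?_) (S.X v) hf.mem.xa hf'.mem.xa hxb hxb' h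
        simpa using h
      · exact (S.gl hc' hf' hc.ab hf.mem.xa hxb.le h (by linarith)).elim

/-- The first vertex strictly inside a wedge has no neighbour to the left. -/
theorem inside_left {a b c v : V} (hc : S.Consec a b c) (hf : S.First a b c v) (hb : v ≠ b)
    (hcv : v ≠ c) (u : V) (huv : G.Adj u v) : ¬ S.X u < S.X v := by
  intro hlt
  have e := hgt_right S.X S.Y u v (ne_of_lt hlt)
  exact S.gl hc hf huv hlt le_rfl (by rw [e]; exact S.first_lo hc hf hb)
    (by rw [e]; exact S.first_hi hc hf hcv)

theorem refl_refl_lt {a b : V} : S.refl.X a < S.refl.X b ↔ S.X b < S.X a := by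
  simp [refl_X]

theorem tok_disj (htri : ∀ a b c, G.Adj a b → G.Adj b c → G.Adj a c → False)
    {a b a' b' v : V} {k k' : Bool × Bool} (hab : G.Adj a b) (hx : S.X a < S.X b)
    (hab' : G.Adj a' b') (hx' : S.refl.X a' < S.refl.X b') (h : S.Tok a b v k)
    (h' : S.refl.Tok a' b' v k') (hk : (k.1 = false ∧ k' = k) ∨ (k.1 = true ∧ k' = (true, !k.2))) :
    False := by
  cases h with
  | top ht =>
    cases h' with
    | top ht' => simp at hk
    | up c' hc' hf' => simp at hk
    | down c' hc' hf' => simp at hk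
    | inside c' w' hc' hf' hb1' hc1' =>
      exact S.refl.inside_left hc' hf' hb1' hc1' b hab.symm (S.refl_refl_lt.mpr hx)
  | up c hc hf =>
    cases h' with
    | top ht' => simp at hk
    | down c' hc' hf' => simp at hk
    | inside c' w' hc' hf' hb1' hc1' => simp at hk
    | up c' hc' hf' =>
      -- `a → b` and `a → c`; mirrored `a' → b` and `a' → c'`
      have hxc := S.first_lt_c hf (S.consec_ne hc)
      have hxc' := S.refl.first_lt_c hf' (S.refl.consec_ne hc')
      rw [refl_refl_lt] at hxc' hx'
      have e := hgt_right S.X S.Y a b (ne_of_lt hx)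
      have k1 := S.first_hi hc hf (S.consec_ne hc)
      have k2 := S.refl.first_hi hc' hf' (S.refl.consec_ne hc')
      have hxac' : S.X c' < S.X a' := S.refl_refl_lt.mp hc'.xc
      have e2 : hgt S.refl.X S.refl.Y a' c' (S.refl.X b) = hgt S.X S.Y c' a' (S.X b) :=
        S.refl_hgt (ne_of_gt hxac') _
      rw [e2, refl_Y] at k2
      rcases lt_trichotomy (hgt S.X S.Y a c (S.X b)) (hgt S.X S.Y c' a' (S.X b)) with h | h | h
      · -- use the mirrored wedge and the edge `a c`
        have e3 : hgt S.refl.X S.refl.Y c a (S.refl.X b) = hgt S.X S.Y a c (S.X b) :=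
          S.refl_hgt (ne_of_gt hc.xc) _
        have e4 := hgt_right S.refl.X S.refl.Y a' b (by
          have := S.refl_refl_lt.mpr hx'
          exact ne_of_lt this)
        refine S.refl.gl hc' hf' (u := c) (w := a) hc.ac.symm (S.refl_refl_lt.mpr hxc)
          (S.refl_refl_lt.mpr hx).le ?_ ?_
        · rw [e3, e4, refl_Y]; exact k1
        · rw [e3, e2]; exact h
      · by_cases hne : (a, c) = (c', a')
        · simp only [Prod.mk.injEq] at hne
          obtain ⟨rfl, rfl⟩ := hne
          exact htri a b c hab hab'.symm hc.ac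
        · exact S.ec a c c' a' hc.ac hc'.ac.symm hne (S.X b) hx hxc' hxc hx' h
      · exact S.gl hc hf (u := c') (w := a') hc'.ac.symm hxc' hx'.le (by rw [e]; exact k2) h
  | down c hc hf =>
    cases h' with
    | top ht' => simp at hk
    | up c' hc' hf' => simp at hk
    | inside c' w' hc' hf' hb1' hc1' => simp at hk
    | down c' hc' hf' =>
      -- `a → b` and `a → v`; mirrored `a' → b'` and `a' → v`
      have hxb := S.first_lt_b hf (S.consec_ne hc).symm
      have hxb' := S.refl.first_lt_b hf' (S.refl.consec_ne hc').symm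
      rw [refl_refl_lt] at hxb' hx'
      have hxv' : S.X v < S.X a' := S.refl_refl_lt.mp hc'.xc
      have e := hgt_right S.X S.Y a v (ne_of_lt hc.xc)
      have k1 := S.first_lo hc hf (S.consec_ne hc).symm
      have k2 := S.refl.first_lo hc' hf' (S.refl.consec_ne hc').symm
      have e2 : hgt S.refl.X S.refl.Y a' b' (S.refl.X v) = hgt S.X S.Y b' a' (S.X v) :=
        S.refl_hgt (ne_of_gt hx') _
      rw [e2, refl_Y] at k2
      rcases lt_trichotomy (hgt S.X S.Y a b (S.X v)) (hgt S.X S.Y b' a' (S.X v)) with h | h | h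
      · exact S.gl hc hf (u := b') (w := a') hab'.symm hxb' hxv'.le h (by rw [e]; exact k2)
      · by_cases hne : (a, b) = (b', a')
        · simp only [Prod.mk.injEq] at hne
          obtain ⟨rfl, rfl⟩ := hne
          exact htri a b v hab hc'.ac hc.ac
        · exact S.ec a b b' a' hab hab'.symm hne (S.X v) hc.xc hxb' hxb hxv' h
      · have e3 : hgt S.refl.X S.refl.Y b a (S.refl.X v) = hgt S.X S.Y a b (S.X v) :=
          S.refl_hgt (ne_of_gt hx) _
        have e4 := hgt_right S.refl.X S.refl.Y a' v (ne_of_lt hc'.xc)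
        refine S.refl.gl hc' hf' (u := b) (w := a) hab.symm (S.refl_refl_lt.mpr hxb)
          (S.refl_refl_lt.mpr hc.xc).le ?_ ?_
        · rw [e3, e2]; exact h
        · rw [e3, e4, refl_Y]; exact k1
  | inside c w hc hf hb1 hc1 =>
    cases h' with
    | up c' hc' hf' => simp at hk
    | down c' hc' hf' => simp at hk
    | inside c' w' hc' hf' hb1' hc1' => simp at hk
    | top ht' =>
      exact S.inside_left hc hf hb1 hc1 b' hab'.symm (S.refl_refl_lt.mp hx')

end Sys

end Pool.Agent.Lib.MP_a8e10c_co
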