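import Mathlib
import Pool.Agent.Lib.MP_a8e10c_co.Defs
import Pool.Agent.Lib.MP_a8e10c_co.Host
import Pool.Agent.Lib.MP_a8e10c_co.Lower

namespace Pool.Agent.Lib.MP_a8e10c_co

variable {V : Type*} {G : SimpleGraph V}

/-- points of the line over the interval are on the segment -/
theorem exists_mem_seg (f : V → ℝ × ℝ) (ε : ℝ) (a b : V) (x : ℝ)
    (h1 : (f a).1 + ε * (f a).2 ≤ x) (h2 : x ≤ (f b).1 + ε * (f b).2)
    (h3 : (f a).1 + ε * (f a).2 < (f b).1 + ε * (f b).2) :
    (x - ε * hgt (fun v => (f v).1 + ε * (f v).2) (fun v => (f v).2) a b x,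
      hgt (fun v => (f v).1 + ε * (f v).2) (fun v => (f v).2) a b x) ∈ segment ℝ (f a) (f b) := by
  set A := (f a).1 + ε * (f a).2 with hA
  set B := (f b).1 + ε * (f b).2 with hB
  have hden : 0 < B - A := by linarith
  rw [mem_seg]
  refine ⟨(x - A) / (B - A), div_nonneg (by linarith) hden.le, ?_, ?_⟩
  · rw [div_le_one hden]
    linarith
  · have e : hgt (fun v => (f v).1 + ε * (f v).2) (fun v => (f v).2) a b x =
        (1 - (x - A) / (B - A)) * (f a).2 + (x - A) / (B - A) * (f b).2 := by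
      simp only [hgt, slp, ← hA, ← hB]
      field_simp
      ring
    rw [e]
    refine Prod.ext ?_ rfl
    simp only
    have h4 : x = (1 - (x - A) / (B - A)) * A + (x - A) / (B - A) * B := by
      field_simp
      ring
    have h5 : (1 - (x - A) / (B - A)) * A + (x - A) / (B - A) * B -
        ε * ((1 - (x - A) / (B - A)) * (f a).2 + (x - A) / (B - A) * (f b).2) =
        (1 - (x - A) / (B - A)) * (f a).1 + (x - A) / (B - A) * (f b).1 := by
      rw [hA, hB]
      ring
    rw [← h5, ← h4]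

theorem exists_shear [Finite V] (f : V → ℝ × ℝ) (hf : Function.Injective f) :
    ∃ ε : ℝ, Function.Injective (fun v => (f v).1 + ε * (f v).2) := by
  classical
  have hfin : (Set.range (fun p : V × V =>
      -((f p.1).1 - (f p.2).1) / ((f p.1).2 - (f p.2).2))).Finite := Set.finite_range _
  obtain ⟨ε, hε⟩ := hfin.exists_notMem
  refine ⟨ε, ?_⟩
  intro u v huv
  by_contra hne
  simp only at huv
  by_cases hy : (f u).2 = (f v).2
  · rw [hy] at huv
    have : (f u).1 = (f v).1 := by linarith
    exact hne (hf (Prod.ext this hy))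
  · apply hε
    refine ⟨(u, v), ?_⟩
    have : (f u).2 - (f v).2 ≠ 0 := sub_ne_zero.mpr hy
    simp only
    rw [div_eq_iff this]
    linarith

/-- A plane drawing gives a plane system. -/
theorem exists_sys [Finite V] (h : Planar G) : Nonempty (Sys G) := by
  obtain ⟨f, hf⟩ := h
  obtain ⟨ε, hε⟩ := exists_shear f hf.inj
  refine ⟨⟨fun v => (f v).1 + ε * (f v).2, fun v => (f v).2, hε, ?_, ?_⟩⟩
  · intro a b w hab h1 h2 h3
    have hm := exists_mem_seg f ε a b _ h1.le h2.le (h1.trans h2)
    rw [h3] at hm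
    have e : (((f w).1 + ε * (f w).2) - ε * (f w).2, (f w).2) = f w := by
      refine Prod.ext ?_ rfl
      simp
    rw [e] at hm
    rcases hf.vertex a b w hab hm with h | h
    · subst h; exact lt_irrefl _ h1
    · subst h; exact lt_irrefl _ h2
  · intro a b c d hab hcd hne x h1 h2 h3 h4 h5
    have m1 := exists_mem_seg f ε a b x h1.le h3.le (h1.trans h3)
    have m2 := exists_mem_seg f ε c d x h2.le h4.le (h2.trans h4)
    rw [← h5] at m2
    have hne' : s(a, b) ≠ s(c, d) := by
      intro h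
      rw [Sym2.eq_iff] at h
      rcases h with ⟨rfl, rfl⟩ | ⟨rfl, rfl⟩
      · exact hne rfl
      · exact absurd (h1.trans h3) (not_lt.mpr (h2.trans h4).le)
    obtain ⟨v, ⟨hv1, hv2⟩, hv3⟩ := hf.edge a b c d hab hcd hne' ⟨m1, m2⟩
    have e1 : (f v).1 + ε * (f v).2 = x := by
      rw [hv3]
      simp
    rcases hv1 with h | h
    · subst h; exact absurd e1 (ne_of_lt h1)
    · simp only [Set.mem_singleton_iff] at h
      subst h; exact absurd e1 (ne_of_gt h3)

open Classical in
/-- A finite triangle-free planar graph on `n` vertices has at most `4 n` oriented edges. -/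
theorem card_darts_le [Fintype V] (h : Planar G)
    (htri : ∀ a b c, G.Adj a b → G.Adj b c → G.Adj a c → False) :
    (Finset.univ.filter fun p : V × V => G.Adj p.1 p.2).card ≤ 4 * Fintype.card V := by
  obtain ⟨S⟩ := exists_sys h
  have hex : ∀ p : V × V, ∃ t : V × (Bool × Bool), G.Adj p.1 p.2 →
      (S.X p.1 < S.X p.2 ∧ S.Tok p.1 p.2 t.1 t.2) ∨
      (S.X p.2 < S.X p.1 ∧ ∃ k, S.refl.Tok p.1 p.2 t.1 k ∧
        ((k.1 = false ∧ t.2 = k) ∨ (k.1 = true ∧ t.2 = (true, !k.2)))) := by
    intro p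
    by_cases hp : G.Adj p.1 p.2
    swap
    · exact ⟨(p.1, (false, false)), fun h => absurd h hp⟩
    rcases lt_trichotomy (S.X p.1) (S.X p.2) with h | h | h
    · obtain ⟨v, k, hk⟩ := S.tok_exists hp h
      exact ⟨(v, k), fun _ => Or.inl ⟨h, hk⟩⟩
    · exact absurd (S.inj h) hp.ne
    · obtain ⟨v, k, hk⟩ := S.refl.tok_exists hp (S.refl_refl_lt.mpr h)
      rcases hb : k.1 with _ | _
      · exact ⟨(v, k), fun _ => Or.inr ⟨h, k, hk, Or.inl ⟨hb, rfl⟩⟩⟩
      · exact ⟨(v, (true, !k.2)), fun _ => Or.inr ⟨h, k, hk, Or.inr ⟨hb, rfl⟩⟩⟩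
  choose φ hφ using hex
  have hinj : Set.InjOn φ (Finset.univ.filter fun p : V × V => G.Adj p.1 p.2 : Finset (V × V)) := by
    intro p hp q hq hpq
    simp only [Finset.coe_filter, Finset.mem_univ, true_and, Set.mem_ofPred_eq] at hp hq
    have h1 := hφ p hp
    have h2 := hφ q hq
    rw [← hpq] at h2
    rcases h1 with ⟨x1, t1⟩ | ⟨x1, k1, t1, e1⟩ <;> rcases h2 with ⟨x2, t2⟩ | ⟨x2, k2, t2, e2⟩
    · obtain ⟨r1, r2⟩ := S.tok_inj hp x1 hq x2 t1 t2
      exact Prod.ext r1 r2
    · exfalso
      refine S.tok_disj htri hp x1 hq (S.refl_refl_lt.mpr x2) t1 t2 ?_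
      rcases e2 with ⟨r1, r2⟩ | ⟨r1, r2⟩
      · left; rw [r2]; exact ⟨r1, rfl⟩
      · right
        rw [r2]
        refine ⟨rfl, Prod.ext r1 ?_⟩
        simp
    · exfalso
      refine S.tok_disj htri hq x2 hp (S.refl_refl_lt.mpr x1) t2 t1 ?_
      rcases e1 with ⟨r1, r2⟩ | ⟨r1, r2⟩
      · left; rw [r2]; exact ⟨r1, rfl⟩
      · right
        rw [r2]
        refine ⟨rfl, Prod.ext r1 ?_⟩
        simp
    · have hk : k1 = k2 := by
        rcases e1 with ⟨r1, r2⟩ | ⟨r1, r2⟩ <;> rcases e2 with ⟨r3, r4⟩ | ⟨r3, r4⟩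
        · rw [← r2, ← r4]
        · exfalso
          rw [r2] at r4
          rw [r4] at r1
          simp at r1
        · exfalso
          rw [r4] at r2
          rw [r2] at r3
          simp at r3
        · rw [r2] at r4
          simp only [Prod.mk.injEq, true_and] at r4
          refine Prod.ext (r1.trans r3.symm) ?_
          simpa using r4
      subst hk
      obtain ⟨r1, r2⟩ := S.refl.tok_inj hp (S.refl_refl_lt.mpr x1) hq (S.refl_refl_lt.mpr x2) t1 t2
      exact Prod.ext r1 r2
  have := Finset.card_le_card_of_injOn φ (t := Finset.univ) (fun _ _ => Finset.mem_univ _) hinj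
  refine this.trans (le_of_eq ?_)
  simp only [Finset.card_univ, Fintype.card_prod, Fintype.card_bool]
  ring

/-- A two-colourable graph has no triangle. -/
theorem no_triangle (h : G.Colorable 2) (a b c : V) (hab : G.Adj a b) (hbc : G.Adj b c)
    (hac : G.Adj a c) : False := by
  obtain ⟨C⟩ := h
  have h1 := C.valid hab
  have h2 := C.valid hbc
  have h3 := C.valid hac
  have e1 : (C a).val ≠ (C b).val := fun h => h1 (Fin.ext h)
  have e2 : (C b).val ≠ (C c).val := fun h => h2 (Fin.ext h)
  have e3 : (C a).val ≠ (C c).val := fun h => h3 (Fin.ext h)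
  have := (C a).2
  have := (C b).2
  have := (C c).2
  omega

open Classical in
/-- Lower bound. -/
theorem lower (p t : ℕ) (hp : p % 4 = 2) (h : CoveredBy (⊤ : SimpleGraph (Fin p)) t) :
    (p + 2) / 4 ≤ t := by
  obtain ⟨H, h1, h2⟩ := h
  have hsub : (Finset.univ.filter fun q : Fin p × Fin p => q.1 ≠ q.2) ⊆
      Finset.univ.biUnion (fun i : Fin t =>
        Finset.univ.filter fun q : Fin p × Fin p => (H i).Adj q.1 q.2) := by
    intro q hq
    simp only [Finset.mem_filter, Finset.mem_univ, true_and] at hq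
    obtain ⟨i, hi⟩ := h2 q.1 q.2 (by rwa [SimpleGraph.top_adj])
    simp only [Finset.mem_biUnion, Finset.mem_filter, Finset.mem_univ, true_and]
    exact ⟨i, hi⟩
  have c1 := Finset.card_le_card hsub
  have c2 : (Finset.univ.biUnion (fun i : Fin t =>
        Finset.univ.filter fun q : Fin p × Fin p => (H i).Adj q.1 q.2)).card ≤ t * (4 * p) := by
    refine Finset.card_biUnion_le.trans ?_
    refine (Finset.sum_le_card_nsmul Finset.univ _ (4 * p) ?_).trans (by simp)
    intro i _
    have := card_darts_le (h1 i).2.1 (no_triangle (h1 i).2.2)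
    rwa [Fintype.card_fin] at this
  have c3 : (Finset.univ.filter fun q : Fin p × Fin p => q.1 ≠ q.2).card = p * p - p := by
    have : (Finset.univ.filter fun q : Fin p × Fin p => q.1 ≠ q.2) =
        (Finset.univ : Finset (Fin p)).offDiag := by
      ext q
      simp [Finset.mem_offDiag]
    rw [this, Finset.offDiag_card]
    simp
  have hp0 : 0 < p := by omega
  have c4 : p * (p - 1) ≤ p * (4 * t) := by
    have : p * (p - 1) = p * p - p := by rw [Nat.mul_sub_one]
    rw [this, ← c3]
    refine (c1.trans c2).trans (le_of_eq (by ring))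
  have c5 := Nat.le_of_mul_le_mul_left c4 hp0
  omega

end Pool.Agent.Lib.MP_a8e10c_co
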