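import Mathlib
import Pool.Agent.Lib.MP_a8e10c_co.Defs
import Pool.Agent.Lib.MP_a8e10c_co.Host
import Pool.Agent.Lib.MP_a8e10c_co.Book

namespace Pool.Agent.Lib.MP_a8e10c_co

/-- position of the node `c` on the `r`-th zigzag Hamiltonian path of the complete graph on
`2 s` nodes -/
def pos (s r c : ℕ) : ℕ :=
  if c ≤ r then 2 * (r - c) + 1 else if c ≤ r + s then 2 * (c - r) else 2 * (2 * s + r - c) + 1

/-- the pair of nodes `{2 g, 2 g + 1}` used in the `r`-th graph -/
def grp (r : ℕ) : ℕ := if r = 0 then 1 else if r = 1 then 0 else r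

theorem grp_grp (g : ℕ) : grp (grp g) = g := by
  unfold grp
  by_cases h0 : g = 0
  · simp [h0]
  · by_cases h1 : g = 1
    · simp [h1]
    · simp [h0, h1]

/-- the position at which the two extra vertices are placed -/
def mpos (r : ℕ) : ℕ := if r = 1 then 2 else if r = 0 then 5 else 2 * r + 1

theorem pos_pos (s r c : ℕ) (_hr : r < s) (_hc : c < 2 * s) : 1 ≤ pos s r c := by
  unfold pos
  split_ifs <;> omega

theorem pos_inj (s r c d : ℕ) (_hr : r < s) (hc : c < 2 * s) (hd : d < 2 * s)
    (h : pos s r c = pos s r d) : c = d := by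
  unfold pos at h
  split_ifs at h <;> omega

theorem pos_cover (s c d : ℕ) (hc : c < 2 * s) (hd : d < 2 * s) (h : c < d) :
    ∃ r < s, pos s r c = pos s r d + 1 ∨ pos s r d = pos s r c + 1 := by
  by_cases h1 : c + d < 2 * s
  · refine ⟨(c + d) / 2, by omega, ?_⟩
    unfold pos
    split_ifs <;> omega
  · refine ⟨(c + d - 2 * s) / 2, by omega, ?_⟩
    unfold pos
    split_ifs <;> omega

theorem pos_mpos (s r c : ℕ) (hs : 3 ≤ s) (_hr : r < s) (hc : c < 2 * s) (h : c / 2 = grp r) :
    pos s r c = mpos r + 1 ∨ mpos r = pos s r c + 1 := by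
  unfold pos mpos
  unfold grp at h
  split_ifs at h ⊢ <;> omega

/-- The vertex set: two copies of each of the `2 s` nodes, and two extra vertices. -/
abbrev Vx (s : ℕ) := (Fin (2 * s) × Bool) ⊕ Bool

/-- numerical value attached to a vertex in the `r`-th drawing -/
def val (s r : ℕ) : Vx s → ℕ
  | Sum.inl (c, _) => pos s r c
  | Sum.inr _ => mpos r

/-- which side of the origin -/
def side (s : ℕ) : Vx s → Bool
  | Sum.inl (_, b) => b
  | Sum.inr b => b

/-- whether the vertex is drawn on the `x`-axis -/
def onx (s r : ℕ) : Vx s → Bool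
  | Sum.inl (c, _) => pos s r c % 2 = 1
  | Sum.inr _ => mpos r % 2 = 0

def sgn : Bool → ℤ
  | true => 1
  | false => -1

def plc (k : ℕ) (x b : Bool) : ℤ × ℤ := if x then (sgn b * k, 0) else (0, sgn b * k)

theorem plc_inj {k k' : ℕ} {x x' b b' : Bool} (hk : 1 ≤ k) (hk' : 1 ≤ k')
    (h : plc k x b = plc k' x' b') : k = k' ∧ x = x' ∧ b = b' := by
  cases x <;> cases x' <;> cases b <;> cases b' <;> simp [plc, sgn] at h ⊢ <;> omega

theorem plc_hostV {k : ℕ} {x b : Bool} (hk : 1 ≤ k) : HostV (plc k x b) := by
  cases x <;> cases b <;> simp [plc, sgn, HostV] <;> omega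

theorem host_diag_plc {k l : ℕ} {b c : Bool} (hk : k % 2 = 1) (hl : l % 2 = 0) (hl0 : 1 ≤ l)
    (h : k = l + 1 ∨ l = k + 1) : Host (plc k true b) (plc l false c) := by
  simp only [plc, if_true]
  refine Host.diag _ _ ?_ ?_ ?_ ?_ ?_
  · cases b <;> simp [sgn] <;> omega
  · cases c <;> simp [sgn] <;> omega
  · have e1 : |sgn b * (k : ℤ)| = k := by cases b <;> simp [sgn]
    have e2 : |sgn c * (l : ℤ)| = l := by cases c <;> simp [sgn]
    rw [e1, e2]
    omega
  · cases b <;> simp [sgn] <;> omega
  · cases c <;> simp [sgn] <;> omega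

theorem host_axis_plc {k l : ℕ} {x b : Bool} (hk : 1 ≤ k) (h : l = k + 1) :
    Host (plc k x b) (plc l x b) ∨ Host (plc l x b) (plc k x b) := by
  subst h
  cases x <;> cases b
  · right
    have := Host.vert (-(k + 1 : ℤ)) (Or.inr (by omega))
    simpa [plc, sgn] using this
  · left
    have := Host.vert (k : ℤ) (Or.inl (by omega))
    simpa [plc, sgn] using this
  · right
    have := Host.horiz (-(k + 1 : ℤ)) (Or.inr (by omega))
    simpa [plc, sgn] using this
  · left
    have := Host.horiz (k : ℤ) (Or.inl (by omega))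
    simpa [plc, sgn] using this

/-- drawing of the `r`-th graph -/
def drw (s r : ℕ) (v : Vx s) : ℤ × ℤ := plc (val s r v) (onx s r v) (side s v)

/-- edges of the `r`-th graph -/
def relG (s r : ℕ) : Vx s → Vx s → Prop
  | Sum.inl (c, _), Sum.inl (d, _) => pos s r d = pos s r c + 1
  | Sum.inl (c, b), Sum.inr e => b = e ∧ c.val / 2 = grp r
  | _, _ => False

/-- the `r`-th graph: the doubled path together with two vertices of degree two -/
def G (s r : ℕ) : SimpleGraph (Vx s) := SimpleGraph.fromRel (relG s r)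

theorem mpos_pos (r : ℕ) : 1 ≤ mpos r := by
  unfold mpos
  split_ifs <;> omega

theorem val_pos (s r : ℕ) (hr : r < s) (v : Vx s) : 1 ≤ val s r v := by
  rcases v with ⟨c, b⟩ | b
  · exact pos_pos s r c hr c.2
  · exact mpos_pos r

theorem drw_inj (s r : ℕ) (hr : r < s) : Function.Injective (drw s r) := by
  intro v w h
  obtain ⟨h1, h2, h3⟩ := plc_inj (val_pos s r hr v) (val_pos s r hr w) h
  rcases v with ⟨c, b⟩ | b <;> rcases w with ⟨d, e⟩ | e
  · simp only [val, side] at h1 h3
    have := pos_inj s r c d hr c.2 d.2 h1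
    rw [Fin.ext this, h3]
  · simp only [val, onx, decide_eq_decide] at h1 h2
    omega
  · simp only [val, onx, decide_eq_decide] at h1 h2
    omega
  · simp only [side] at h3
    rw [h3]

theorem relG_host (s r : ℕ) (hs : 3 ≤ s) (hr : r < s) (v w : Vx s) (h : relG s r v w) :
    Host (drw s r v) (drw s r w) ∨ Host (drw s r w) (drw s r v) := by
  rcases v with ⟨c, b⟩ | b <;> rcases w with ⟨d, e⟩ | e
  · simp only [relG] at h
    simp only [drw, val, onx, side]
    have hc := pos_pos s r c hr c.2
    have hd := pos_pos s r d hr d.2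
    by_cases hp : pos s r c % 2 = 1
    · left
      have hq : pos s r d % 2 = 0 := by omega
      have hq' : ¬ (pos s r d % 2 = 1) := by omega
      simp only [hp, decide_true, hq', decide_false]
      exact host_diag_plc hp hq hd (Or.inr h)
    · right
      have hq : pos s r d % 2 = 1 := by omega
      simp only [hp, decide_false, hq, decide_true]
      exact host_diag_plc hq (by omega) hc (Or.inl h)
  · simp only [relG] at h
    obtain ⟨h1, h2⟩ := h
    subst h1
    have h3 := pos_mpos s r c hs hr c.2 h2
    have hc := pos_pos s r c hr c.2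
    have hm := mpos_pos r
    simp only [drw, val, onx, side]
    have e1 : decide (pos s r c % 2 = 1) = decide (mpos r % 2 = 0) := by
      rw [decide_eq_decide]
      omega
    rw [e1]
    rcases h3 with h3 | h3
    · exact (host_axis_plc hm h3).symm
    · exact host_axis_plc hc h3
  · simp [relG] at h
  · simp [relG] at h

theorem G_planar (s r : ℕ) (hs : 3 ≤ s) (hr : r < s) : Planar (G s r) := by
  refine planar_of_host (G s r) (drw s r) (drw_inj s r hr)
    (fun v => plc_hostV (val_pos s r hr v)) ?_
  intro a b hab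
  simp only [G, SimpleGraph.fromRel_adj] at hab
  rcases hab.2 with h | h
  · exact relG_host s r hs hr a b h
  · exact (relG_host s r hs hr b a h).symm

theorem relG_val (s r : ℕ) (hs : 3 ≤ s) (hr : r < s) (v w : Vx s) (h : relG s r v w) :
    val s r v % 2 ≠ val s r w % 2 := by
  rcases v with ⟨c, b⟩ | b <;> rcases w with ⟨d, e⟩ | e
  · simp only [relG] at h
    simp only [val]
    omega
  · simp only [relG] at h
    have h3 := pos_mpos s r c hs hr c.2 h.2
    simp only [val]
    omega
  · simp [relG] at h
  · simp [relG] at h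

theorem colorable_of_parity {V : Type*} (G : SimpleGraph V) (f : V → ℕ)
    (h : ∀ a b, G.Adj a b → f a % 2 ≠ f b % 2) : G.Colorable 2 := by
  refine ⟨SimpleGraph.Coloring.mk (fun v => ⟨f v % 2, Nat.mod_lt _ (by norm_num)⟩) ?_⟩
  intro a b hab he
  exact h a b hab (by simpa using congrArg Fin.val he)

theorem G_colorable (s r : ℕ) (hs : 3 ≤ s) (hr : r < s) : (G s r).Colorable 2 := by
  refine colorable_of_parity _ (val s r) ?_
  intro a b hab
  simp only [G, SimpleGraph.fromRel_adj] at hab
  rcases hab.2 with h | h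
  · exact relG_val s r hs hr a b h
  · exact (relG_val s r hs hr b a h).symm

/-- edges of the last graph -/
def relB (s : ℕ) : Vx s → Vx s → Prop
  | Sum.inr false, Sum.inr true => True
  | Sum.inr false, Sum.inl (_, true) => True
  | Sum.inr true, Sum.inl (_, false) => True
  | Sum.inl (c, true), Sum.inl (d, false) => c = d
  | _, _ => False

/-- the last graph -/
def B (s : ℕ) : SimpleGraph (Vx s) := SimpleGraph.fromRel (relB s)

/-- the drawing of the last graph -/
def drwB (s : ℕ) : Vx s → ℤ × ℤ
  | Sum.inr false => (0, 0)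
  | Sum.inr true => (1, 0)
  | Sum.inl (c, true) => (-((c.val : ℤ) + 1) ^ 2, (c.val : ℤ) + 1)
  | Sum.inl (c, false) => (1 + ((c.val : ℤ) + 1) ^ 2, (c.val : ℤ) + 1)

theorem drwB_inj (s : ℕ) : Function.Injective (drwB s) := by
  rintro (⟨c, _ | _⟩ | _ | _) (⟨d, _ | _⟩ | _ | _) h <;> simp only [drwB, Prod.mk.injEq] at h <;>
    first
    | rfl
    | (exfalso; omega)
    | (exfalso; nlinarith [h.1])
    | (have : c = d := Fin.ext (by omega)
       rw [this])

theorem B_planar (s : ℕ) : Planar (B s) := by
  refine planar_of_book (B s) (drwB s) (drwB_inj s) ?_ ?_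
  · rintro (⟨c, _ | _⟩ | _ | _)
    · exact BookV.right _ (by omega)
    · exact BookV.left _ (by omega)
    · exact BookV.o
    · exact BookV.i
  · have main : ∀ a b, relB s a b → BookE (drwB s a) (drwB s b) ∨ BookE (drwB s b) (drwB s a) := by
      rintro (⟨c, _ | _⟩ | _ | _) (⟨d, _ | _⟩ | _ | _) h <;> simp only [relB] at h
      · subst h
        left
        exact BookE.mid _ (by omega)
      · left
        exact BookE.left _ (by omega)
      · left
        exact BookE.base
      · left
        exact BookE.right _ (by omega)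
    intro a b hab
    simp only [B, SimpleGraph.fromRel_adj] at hab
    rcases hab.2 with h | h
    · exact main a b h
    · exact (main b a h).symm

/-- two-colouring of the last graph -/
def colB (s : ℕ) : Vx s → ℕ
  | Sum.inr false => 0
  | Sum.inr true => 1
  | Sum.inl (_, true) => 1
  | Sum.inl (_, false) => 0

theorem B_colorable (s : ℕ) : (B s).Colorable 2 := by
  refine colorable_of_parity _ (colB s) ?_
  have main : ∀ a b, relB s a b → colB s a % 2 ≠ colB s b % 2 := by
    rintro (⟨c, _ | _⟩ | _ | _) (⟨d, _ | _⟩ | _ | _) h <;> simp only [relB] at h <;> simp [colB]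
  intro a b hab
  simp only [B, SimpleGraph.fromRel_adj] at hab
  rcases hab.2 with h | h
  · exact main a b h
  · exact (main b a h).symm

theorem covered (s : ℕ) (hs : 3 ≤ s) : CoveredBy (⊤ : SimpleGraph (Vx s)) (s + 1) := by
  refine ⟨fun i => if i.val < s then G s i.val else B s, ?_, ?_⟩
  · intro i
    refine ⟨le_top, ?_⟩
    by_cases hi : i.val < s
    · simp only [hi, if_true]
      exact ⟨G_planar s i hs hi, G_colorable s i hs hi⟩
    · simp only [hi, if_false]
      exact ⟨B_planar s, B_colorable s⟩
  · have viaG : ∀ r < s, ∀ a b : Vx s, a ≠ b → (relG s r a b ∨ relG s r b a) →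
        ∃ i : Fin (s + 1), (if i.val < s then G s i.val else B s).Adj a b := by
      intro r hr a b hab h
      refine ⟨⟨r, by omega⟩, ?_⟩
      simp only [hr, if_true]
      exact (SimpleGraph.fromRel_adj _ _ _).mpr ⟨hab, h⟩
    have viaB : ∀ a b : Vx s, a ≠ b → (relB s a b ∨ relB s b a) →
        ∃ i : Fin (s + 1), (if i.val < s then G s i.val else B s).Adj a b := by
      intro a b hab h
      refine ⟨⟨s, by omega⟩, ?_⟩
      simp only [lt_irrefl, if_false]
      exact (SimpleGraph.fromRel_adj _ _ _).mpr ⟨hab, h⟩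
    have mixed : ∀ (c : Fin (2 * s)) (b e : Bool),
        ∃ i : Fin (s + 1), (if i.val < s then G s i.val else B s).Adj (Sum.inl (c, b))
          (Sum.inr e) := by
      intro c b e
      by_cases hbe : b = e
      · have hc := c.2
        refine viaG (grp (c.val / 2)) ?_ _ _ (by simp) (Or.inl ⟨hbe, ?_⟩)
        · unfold grp
          split_ifs <;> omega
        · rw [grp_grp]
      · apply viaB _ _ (by simp)
        right
        cases b <;> cases e <;> simp_all [relB]
    rintro (⟨c, b⟩ | b) (⟨d, e⟩ | e) hab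
    · rw [SimpleGraph.top_adj] at hab
      rcases lt_trichotomy c.val d.val with h | h | h
      · obtain ⟨r, hr, h'⟩ := pos_cover s c d c.2 d.2 h
        refine viaG r hr _ _ hab ?_
        simp only [relG]
        tauto
      · have hcd : c = d := Fin.ext h
        subst hcd
        have hbe : b ≠ e := fun h => hab (by rw [h])
        apply viaB _ _ hab
        cases b <;> cases e <;> simp_all [relB]
      · obtain ⟨r, hr, h'⟩ := pos_cover s d c d.2 c.2 h
        refine viaG r hr _ _ hab ?_
        simp only [relG]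
        tauto
    · exact mixed c b e
    · obtain ⟨i, hi⟩ := mixed d e b
      exact ⟨i, hi.symm⟩
    · rw [SimpleGraph.top_adj] at hab
      apply viaB _ _ hab
      cases b <;> cases e <;> simp_all [relB]

theorem Planar.comap {V W : Type*} {G : SimpleGraph V} (h : Planar G) (e : W ≃ V) :
    Planar (G.comap e) := by
  obtain ⟨f, hf, hv, he⟩ := h
  refine ⟨fun w => f (e w), hf.comp e.injective, ?_, ?_⟩
  · intro a b w hab hw
    rcases hv (e a) (e b) (e w) hab hw with h | h
    · left; exact e.injective h
    · right; exact e.injective h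
  · intro a b c d hab hcd hne p hp
    have hne' : s(e a, e b) ≠ s(e c, e d) := by
      intro h
      apply hne
      rw [Sym2.eq_iff] at h ⊢
      rcases h with ⟨h1, h2⟩ | ⟨h1, h2⟩
      · left; exact ⟨e.injective h1, e.injective h2⟩
      · right; exact ⟨e.injective h1, e.injective h2⟩
    obtain ⟨v, ⟨hv1, hv2⟩, hv3⟩ := he (e a) (e b) (e c) (e d) hab hcd hne' hp
    refine ⟨e.symm v, ⟨?_, ?_⟩, by simpa using hv3⟩
    · rcases hv1 with h | h
      · left; rw [h]; simp
      · right; simp only [Set.mem_singleton_iff] at h ⊢; rw [h]; simp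
    · rcases hv2 with h | h
      · left; rw [h]; simp
      · right; simp only [Set.mem_singleton_iff] at h ⊢; rw [h]; simp

theorem CoveredBy.equiv {V W : Type*} {t : ℕ} (h : CoveredBy (⊤ : SimpleGraph V) t) (e : W ≃ V) :
    CoveredBy (⊤ : SimpleGraph W) t := by
  obtain ⟨H, h1, h2⟩ := h
  refine ⟨fun i => (H i).comap e, fun i => ⟨le_top, (h1 i).2.1.comap e, ?_⟩, ?_⟩
  · exact (h1 i).2.2.of_hom (SimpleGraph.Hom.comap e (H i))
  · intro a b hab
    rw [SimpleGraph.top_adj] at hab
    obtain ⟨i, hi⟩ := h2 (e a) (e b) (by rw [SimpleGraph.top_adj]; exact fun h => hab (e.injective h))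
    exact ⟨i, hi⟩

/-- Upper bound: for `p = 4 s + 2 ≥ 14` the complete graph on `p` vertices is the union of
`s + 1 = (p + 2) / 4` planar bipartite graphs. -/
theorem upper (p : ℕ) (hp : p % 4 = 2) (hp' : 14 ≤ p) :
    CoveredBy (⊤ : SimpleGraph (Fin p)) ((p + 2) / 4) := by
  obtain ⟨s, rfl⟩ : ∃ s, p = 4 * s + 2 := ⟨p / 4, by omega⟩
  have hs : 3 ≤ s := by omega
  have e : Fin (4 * s + 2) ≃ Vx s := by
    apply Fintype.equivOfCardEq
    simp only [Fintype.card_fin, Fintype.card_sum, Fintype.card_prod, Fintype.card_bool]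
    omega
  have : (4 * s + 2 + 2) / 4 = s + 1 := by omega
  rw [this]
  exact (covered s hs).equiv e

end Pool.Agent.Lib.MP_a8e10c_co
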